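import Pool.Agent.H30.SnA

set_option autoImplicit false

namespace Pool.Agent.Results.MP_085bfa_gt.SnLe

open Set Filter Topology Function TopologicalSpace Pool.Agent.H30.Sn

/-- `ind Z = 0`: `Z` is nonempty and every point has arbitrarily small clopen neighbourhoods. -/
def IndZero (Z : Type) [TopologicalSpace Z] : Prop :=
  Nonempty Z ∧ ∀ (x : Z) (U : Set Z), IsOpen U → x ∈ U → ∃ V : Set Z, IsClopen V ∧ x ∈ V ∧ V ⊆ U

/-- The class of separable metrizable spaces with `ind = 0`. -/
def SM0 (Z : Type) (τ : TopologicalSpace Z) : Prop :=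
  @SeparableSpace Z τ ∧ @MetrizableSpace Z τ ∧ @IndZero Z τ

theorem result (n : ℕ) (X : Type) [τ₀ : TopologicalSpace X] [Nonempty X] [SeparableSpace X]
    [MetrizableSpace X] (h : DimLe X n) :
    ∃ τ : Fin (n + 1) → TopologicalSpace X, (∀ i, (∀ U, IsOpen[τ₀] U → IsOpen[τ i] U) ∧ SM0 X (τ i)) ∧
      ∀ U, (∀ i, IsOpen[τ i] U) → IsOpen[τ₀] U := by
  classical
  letI : MetricSpace X := metrizableSpaceMetric X
  obtain ⟨e, he⟩ := exists_surjective_nat (ℕ × ℕ)
  let r : ℕ → ℝ := fun k => 1 / (((e k).2 : ℝ) + 1)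
  have r0 : ∀ k, 0 < r k := fun k => Nat.one_div_pos_of_nat
  let c : ℕ → X := fun k => denseSeq X (e k).1
  obtain ⟨G, G1, G2⟩ := bases h (fun k => (Metric.ball (c k) (r k), (Metric.closedBall (c k) (3 * r k))ᶜ))
    fun k => ⟨Metric.isOpen_ball, Metric.isClosed_closedBall.isOpen_compl,
      (disjoint_compl_right (a := Metric.ball (c k) (2 * r k))).mono
        (Metric.closure_ball_subset_closedBall.trans (Metric.closedBall_subset_ball (by linarith [r0 k])))
        (closure_minimal (compl_subset_compl.2 (Metric.ball_subset_closedBall.trans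
          (Metric.closedBall_subset_closedBall (by linarith [r0 k])))) Metric.isOpen_ball.isClosed_compl)⟩
  let f : Fin (n + 1) → X → ℕ → Bool := fun i x k => decide (x ∈ G i k)
  have B : ∀ i x U, U ∈ 𝓝 x → ∃ k, x ∈ G i k ∧ G i k ⊆ U := fun i x U hU => by
    obtain ⟨ε, e0, e1⟩ := Metric.mem_nhds_iff.1 hU
    obtain ⟨m, hm⟩ := exists_nat_one_div_lt (show 0 < ε / 4 by positivity)
    obtain ⟨j, hj⟩ := (denseRange_denseSeq X).exists_dist_lt x (Nat.one_div_pos_of_nat (n := m))
    obtain ⟨k, hk⟩ := he (j, m)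
    have e2 : dist x (c k) < r k := by simpa only [c, r, hk] using hj
    have e3 : r k < ε / 4 := by simpa only [r, hk] using hm
    refine ⟨k, (G1 i k).2.1 e2, fun y hy => e1 ?_⟩
    have e4 : dist y (c k) ≤ 3 * r k := by simpa using (G1 i k).2.2 hy
    have := dist_triangle_right y x (c k)
    simp only [Metric.mem_ball]; linarith
  have C : ∀ i k, @IsClopen X (induced (f i) inferInstance) (G i k) := fun i k => by
    letI : TopologicalSpace X := induced (f i) inferInstance
    have e1 : G i k = (fun x => f i x k) ⁻¹' {true} := by ext; simp [f]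
    rw [e1]
    exact (isClopen_discrete _).preimage ((continuous_apply k).comp (continuous_induced_dom (f := f i)))
  have D : ∀ i U, IsOpen[τ₀] U → IsOpen[induced (f i) inferInstance] U := fun i U hU => by
    refine (@isOpen_iff_forall_mem_open X (induced (f i) inferInstance) U).2 fun x hx => ?_
    obtain ⟨k, k1, k2⟩ := B i x U (hU.mem_nhds hx)
    exact ⟨_, k2, (@IsClopen.isOpen X (induced (f i) inferInstance) _ (C i k)), k1⟩
  have I : ∀ i, Injective (f i) := fun i x y e1 => by_contra fun e2 => by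
    obtain ⟨k, k1, k2⟩ := B i x {y}ᶜ (isOpen_compl_singleton.mem_nhds e2)
    have := congrFun e1 k
    simp only [f, k1, decide_true] at this
    exact k2 (by simpa using this.symm) rfl
  refine ⟨fun i => induced (f i) inferInstance, fun i => ⟨D i, ?_⟩, fun U hU => isOpen_iff_mem_nhds.2 fun x hx => ?_⟩
  · have hI := I i
    show SM0 X (induced (f i) inferInstance)
    generalize f i = g at hI
    let τ : TopologicalSpace X := induced g inferInstance
    have e1 : @IsEmbedding X _ τ _ g := @IsEmbedding.mk X _ τ _ g (@IsInducing.mk X _ τ _ g rfl) hI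
    have e2 := @IsEmbedding.secondCountableTopology X _ τ g _ _ e1
    refine ⟨@SecondCountableTopology.to_separableSpace X τ e2, @IsEmbedding.metrizableSpace X _ τ _ _ g e1,
      inferInstance, fun x U hU hx => ?_⟩
    obtain ⟨W, w1, rfl⟩ := (@isOpen_induced_iff X _ _ U g).1 hU
    obtain ⟨V, v1, v2, v3⟩ := compact_exists_isClopen_in_isOpen w1 hx
    exact ⟨g ⁻¹' V, @IsClopen.preimage X _ τ _ V v1 g continuous_induced_dom, v2, preimage_mono v3⟩
  · obtain ⟨i, hi⟩ := G2 x
    obtain ⟨W, w1, rfl⟩ := (@isOpen_induced_iff X _ _ U (f i)).1 (hU i)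
    refine ContinuousAt.preimage_mem_nhds (continuousAt_pi.2 fun k => ?_) (w1.mem_nhds hx)
    refine tendsto_nhds_of_eventually_eq ?_
    rcases hi k with e1 | e1 <;> filter_upwards [e1] with y hy
    · simp [f, hy, mem_of_mem_nhds e1]
    · simp [f, show y ∉ G i k from hy, show x ∉ G i k from mem_of_mem_nhds e1]

end Pool.Agent.Results.MP_085bfa_gt.SnLe
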